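import Pool.Agent.Helper29.SH.Goals

/-!
# Packet SH-FRS: Frobenius action on an `r`-group
-/

set_option autoImplicit false

namespace Pool.Agent.Helper69.SH

open scoped commutatorElement

open Subgroup Pool.H83Shunkov Pool.Agent.Helper29.SH

section

variable {M : Type} [Group M]

theorem fpf_mono {a : M} {K L : Subgroup M} (h : FPF a L) (hKL : K ≤ L) : FPF a K :=
  fun k hk => h k (hKL hk)

theorem inv_of_normal (a : M) (K : Subgroup M) (hK : K.Normal) : Inv a K := by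
  intro k hk
  have := hK.conj_mem k hk a⁻¹
  rwa [inv_inv] at this

/-- An `r`-element of finite order prime to `r` is trivial. -/
theorem eq_one_of_pow {r n k : ℕ} (hr : r.Prime) (z : M) (h1 : z ^ r ^ k = 1) (h2 : z ^ n = 1)
    (hn : ¬ r ∣ n) : z = 1 := by
  have h3 : orderOf z ∣ r ^ k := orderOf_dvd_of_pow_eq_one h1
  have h4 : orderOf z ∣ n := orderOf_dvd_of_pow_eq_one h2
  have h5 : Nat.Coprime (r ^ k) n := Nat.Coprime.pow_left k ((Nat.Prime.coprime_iff_not_dvd hr).2 hn)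
  have h6 : orderOf z ∣ 1 := by
    have := Nat.dvd_gcd h3 h4
    rwa [h5] at this
  exact orderOf_eq_one_iff.1 (Nat.dvd_one.1 h6)

theorem pow_card_mem {V : Subgroup M} {v : M} (hv : v ∈ V) : v ^ Nat.card V = 1 := by
  have h : (⟨v, hv⟩ : V) ^ Nat.card V = 1 := pow_card_eq_one'
  exact congrArg (Subtype.val) h

theorem pgroup_mem {r : ℕ} {S : Subgroup M} (hS : IsPGroup r S) {s : M} (hs : s ∈ S) :
    ∃ k : ℕ, s ^ r ^ k = 1 := by
  obtain ⟨k, hk⟩ := hS ⟨s, hs⟩
  exact ⟨k, by simpa using congrArg (Subtype.val) hk⟩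

theorem conj_pow_formula (v s z : M) (hz : v * z = z * v) (h : v⁻¹ * s * v = s * z) (n : ℕ) :
    (v ^ n)⁻¹ * s * v ^ n = s * z ^ n := by
  induction n with
  | zero => simp
  | succ n ih =>
    have hz' : v⁻¹ * z ^ n * v = z ^ n := by
      have h1 : Commute v (z ^ n) := (show Commute v z from hz).pow_right n
      rw [mul_assoc, ← h1.eq, ← mul_assoc, inv_mul_cancel, one_mul]
    calc (v ^ (n + 1))⁻¹ * s * v ^ (n + 1) = v⁻¹ * ((v ^ n)⁻¹ * s * v ^ n) * v := by
          rw [pow_succ]; group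
      _ = (v⁻¹ * s * v) * (v⁻¹ * z ^ n * v) := by rw [ih]; group
      _ = s * z ^ (n + 1) := by rw [h, hz', pow_succ', mul_assoc]

theorem frs_aux (hB : S_BIJ) (hA : S_FRA) (a : M) (V : Subgroup M) (p r : ℕ)
    (hp : p.Prime) (hr : r.Prime) (ha : a ^ p = 1) (hV : (V : Set M).Finite)
    (hrV : ¬ r ∣ Nat.card V) (haV : Inv a V) (hfV : FPF a V) (n : ℕ) :
    ∀ S : Subgroup M, Nat.card S = n → S.Normal → (S : Set M).Finite → IsPGroup r S → FPF a S →
      ∀ v ∈ V, ∀ s ∈ S, v * s = s * v := by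
  induction n using Nat.strong_induction_on with
  | _ n ih =>
  intro S hn hSn hSf hSr hfS
  by_cases hbot : S = ⊥
  · subst hbot
    intro v _ s hs
    rw [Subgroup.mem_bot.1 hs, mul_one, one_mul]
  have : Fact r.Prime := ⟨hr⟩
  have : Finite S := hSf.to_subtype
  have : Nontrivial S := (Subgroup.nontrivial_iff_ne_bot S).2 hbot
  have : Group.IsNilpotent S := hSr.isNilpotent
  have hsol : Group.IsSolvable S := inferInstance
  have hlt' : _root_.commutator S < ⊤ := Group.IsSolvable.commutator_lt_top_of_nontrivial S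
  have := hSn
  have hDn : (⁅S, S⁆ : Subgroup M).Normal := Subgroup.commutator_normal S S
  have hDS : (⁅S, S⁆ : Subgroup M) ≤ S := Subgroup.commutator_le_left S S
  have hne : (⁅S, S⁆ : Subgroup M) ≠ S := by
    intro h
    rw [← Subgroup.map_subtype_commutator] at h
    have h2 : (_root_.commutator S).map S.subtype = (⊤ : Subgroup S).map S.subtype := by
      rw [h, ← MonoidHom.range_eq_map, S.range_subtype]
    exact hlt'.ne (Subgroup.map_injective S.subtype_injective h2)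
  have hDf : ((⁅S, S⁆ : Subgroup M) : Set M).Finite := hSf.subset hDS
  have hcard : Nat.card (⁅S, S⁆ : Subgroup M) < n := by
    rw [← hn]
    have h1 : ((⁅S, S⁆ : Subgroup M) : Set M) ⊂ (S : Set M) := by
      rw [Set.ssubset_iff_subset_ne]
      exact ⟨hDS, fun h => hne (SetLike.coe_injective h)⟩
    exact Set.ncard_lt_ncard h1 hSf
  have hDr : IsPGroup r (⁅S, S⁆ : Subgroup M) := hSr.to_le hDS
  have hDfpf : FPF a (⁅S, S⁆ : Subgroup M) := fpf_mono hfS hDS
  have hIH := ih _ hcard (⁅S, S⁆) rfl hDn hDf hDr hDfpf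
  -- elements of `⁅S, S⁆ ∩ V` are trivial
  have hDV : ∀ z ∈ (⁅S, S⁆ : Subgroup M), z ∈ V → z = 1 := by
    intro z hz hzV
    obtain ⟨k, hk⟩ := pgroup_mem hDr hz
    exact eq_one_of_pow hr z hk (pow_card_mem hzV) hrV
  -- the quotient
  have hcomm : ∀ s ∈ S, ∀ v ∈ V, s⁻¹ * (v⁻¹ * s * v) ∈ (⁅S, S⁆ : Subgroup M) := by
    have key := hA (M ⧸ (⁅S, S⁆ : Subgroup M)) (QuotientGroup.mk' ⁅S, S⁆ a)
      (S.map (QuotientGroup.mk' ⁅S, S⁆)) (V.map (QuotientGroup.mk' ⁅S, S⁆)) p hp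
      (by rw [← map_pow, ha, map_one]) ?_ ?_ ?_ ?_ ?_ ?_ ?_ ?_ ?_
    · intro s hs v hv
      have h1 := key _ (Subgroup.mem_map_of_mem _ hv) _ (Subgroup.mem_map_of_mem _ hs)
      rw [← map_mul, ← map_mul] at h1
      have h2 : (QuotientGroup.mk (s * v) : M ⧸ (⁅S, S⁆ : Subgroup M)) = QuotientGroup.mk (v * s) :=
        h1.symm
      rw [QuotientGroup.eq] at h2
      have h3 : s⁻¹ * (v⁻¹ * s * v) = ((v * s)⁻¹ * (s * v)) := by group
      rw [h3, ← inv_mem_iff]
      have h4 : ((v * s)⁻¹ * (s * v))⁻¹ = (s * v)⁻¹ * (v * s) := by group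
      rwa [h4]
    · rw [Subgroup.coe_map]; exact hSf.image _
    · rw [Subgroup.coe_map]; exact hV.image _
    · rintro _ ⟨s, hs, rfl⟩
      rw [← map_inv, ← map_mul, ← map_mul]
      exact Subgroup.mem_map_of_mem _ (inv_of_normal a S hSn s hs)
    · rintro _ ⟨v, hv, rfl⟩
      rw [← map_inv, ← map_mul, ← map_mul]
      exact Subgroup.mem_map_of_mem _ (haV v hv)
    · rintro _ ⟨s, hs, rfl⟩ h
      rw [← map_mul, ← map_mul] at h
      have h2 : (QuotientGroup.mk (s * a) : M ⧸ (⁅S, S⁆ : Subgroup M)) = QuotientGroup.mk (a * s) := h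
      rw [QuotientGroup.eq] at h2
      have h3 : (s * a)⁻¹ * (a * s) = a⁻¹ * s⁻¹ * a * s := by group
      rw [h3] at h2
      obtain ⟨k, hk, hks⟩ := hB M a (⁅S, S⁆) hDf (inv_of_normal a _ hDn) hDfpf _ h2
      have h4 : s⁻¹ * a * s = k⁻¹ * a * k := by
        have h5 : a * (a⁻¹ * s⁻¹ * a * s) = a * (a⁻¹ * k⁻¹ * a * k) := by rw [hks]
        calc s⁻¹ * a * s = a * (a⁻¹ * s⁻¹ * a * s) := by group
          _ = a * (a⁻¹ * k⁻¹ * a * k) := h5
          _ = k⁻¹ * a * k := by group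
      have h6 : (s * k⁻¹) * a = a * (s * k⁻¹) := by
        have h7 : s * (s⁻¹ * a * s) * k⁻¹ = s * (k⁻¹ * a * k) * k⁻¹ := by rw [h4]
        calc (s * k⁻¹) * a = s * (k⁻¹ * a * k) * k⁻¹ := by group
          _ = s * (s⁻¹ * a * s) * k⁻¹ := h7.symm
          _ = a * (s * k⁻¹) := by group
      have h8 := hfS (s * k⁻¹) (S.mul_mem hs (S.inv_mem (hDS hk))) h6
      have h9 : s = k := mul_inv_eq_one.1 h8
      rw [h9]
      exact (QuotientGroup.eq_one_iff k).2 hk
    · rintro _ ⟨v, hv, rfl⟩ h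
      rw [← map_mul, ← map_mul] at h
      have h2 : (QuotientGroup.mk (v * a) : M ⧸ (⁅S, S⁆ : Subgroup M)) = QuotientGroup.mk (a * v) := h
      rw [QuotientGroup.eq] at h2
      have h3 : (v * a)⁻¹ * (a * v) = (a⁻¹ * v⁻¹ * a) * v := by group
      have h4 : (v * a)⁻¹ * (a * v) = 1 := by
        apply hDV _ h2
        rw [h3]
        exact V.mul_mem (haV v⁻¹ (V.inv_mem hv)) hv
      have h5 : v * a = a * v := by
        have := inv_mul_eq_one.1 h4
        exact this
      rw [hfV v hv h5, map_one]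
    · rintro _ ⟨v, hv, rfl⟩ _ ⟨s, hs, rfl⟩
      rw [← map_inv, ← map_mul, ← map_mul]
      exact Subgroup.mem_map_of_mem _ (inv_of_normal v S hSn s hs)
    · rintro _ ⟨s, hs, rfl⟩ _ ⟨s', hs', rfl⟩
      rw [← map_mul, ← map_mul]
      apply QuotientGroup.eq.2
      have h1 : (s * s')⁻¹ * (s' * s) = ⁅s'⁻¹, s⁻¹⁆ := by
        rw [commutatorElement_def]; group
      rw [h1]
      exact Subgroup.commutator_mem_commutator (S.inv_mem hs') (S.inv_mem hs)
    · have : Finite V := hV.to_subtype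
      have h1 : Nat.card (V.map (QuotientGroup.mk' (⁅S, S⁆ : Subgroup M))) ∣ Nat.card V :=
        Subgroup.card_map_dvd _ _
      have h2 : IsPGroup r (S.map (QuotientGroup.mk' (⁅S, S⁆ : Subgroup M))) := hSr.map _
      have : Finite (S.map (QuotientGroup.mk' (⁅S, S⁆ : Subgroup M))) := by
        have : ((S.map (QuotientGroup.mk' (⁅S, S⁆ : Subgroup M)) :
            Subgroup (M ⧸ (⁅S, S⁆ : Subgroup M))) : Set (M ⧸ (⁅S, S⁆ : Subgroup M))).Finite := by
          rw [Subgroup.coe_map]; exact hSf.image _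
        exact this.to_subtype
      obtain ⟨m, hm⟩ := IsPGroup.iff_card.1 h2
      rw [hm]
      apply Nat.Coprime.pow_right
      rw [Nat.coprime_comm, Nat.Prime.coprime_iff_not_dvd hr]
      exact fun h => hrV (h.trans h1)
  intro v hv s hs
  have hz := hcomm s hs v hv
  set z : M := s⁻¹ * (v⁻¹ * s * v) with hzdef
  have h1 : v⁻¹ * s * v = s * z := by rw [hzdef]; group
  have h2 := conj_pow_formula v s z (hIH v hv z hz) h1 (Nat.card V)
  rw [pow_card_mem hv, inv_one, one_mul, mul_one] at h2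
  have h3 : z ^ Nat.card V = 1 := by
    have := mul_left_cancel (a := s) (b := 1) (c := z ^ Nat.card V) (by rw [mul_one]; exact h2)
    exact this.symm
  obtain ⟨k, hk⟩ := pgroup_mem hDr hz
  have h4 := eq_one_of_pow hr z hk h3 hrV
  rw [h4, mul_one] at h1
  calc v * s = v * (v⁻¹ * s * v) := by rw [h1]
    _ = s * v := by group

end

theorem t_FRS : S_BIJ → S_FRA → S_FRS := by
  intro hB hA M _ a S V p r hSn hp hr ha hSf hV hSr hrV haV hfS hfV
  exact frs_aux hB hA a V p r hp hr ha hV hrV haV hfV _ S rfl hSn hSf hSr hfS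

end Pool.Agent.Helper69.SH
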