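import Pool.Agent.Helper29.SH.Goals

/-!
# Packet SH-CORE
-/

set_option autoImplicit false

namespace Pool.Agent.Helper69.SH

open Subgroup Pool.H83Shunkov Pool.Agent.Helper29.SH

theorem t_CORE : S_SYC → S_OMG → S_C1 → S_C2 → S_CORE := by
  intro hSYC hOMG hC1 hC2 G _ a F p hS hF
  by_cases hinf : ∃ q : ℕ, q.Prime ∧ {x | Qel a F q x}.Infinite
  · obtain ⟨q, hq, h⟩ := hinf
    exact hC1 G a F p q hS hq h
  push Not at hinf
  have hne : ∃ f ∈ F, f ≠ 1 := by
    by_contra hcon
    push Not at hcon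
    apply hF
    refine (Set.finite_singleton (1 : G)).subset ?_
    intro x hx
    exact hcon x hx
  obtain ⟨f, hfF, hf1⟩ := hne
  obtain ⟨K, hKF, hKfin, hKinv, hfK⟩ := hS.loc f hfF
  have hKfpf : FPF a K := fun k hk => hS.fpf k (hKF hk)
  have : Finite K := hKfin.to_subtype
  have hcard : Nat.card K ≠ 1 := by
    intro h1
    have h2 : K = ⊥ := Subgroup.card_eq_one.1 h1
    rw [h2] at hfK
    exact hf1 (Subgroup.mem_bot.1 hfK)
  have hq : (Nat.card K).minFac.Prime := Nat.minFac_prime hcard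
  obtain ⟨R, hRK, hRcard, hRinv, -⟩ := hSYC G a K p (Nat.card K).minFac hKfin hKinv hKfpf hS.hp
    hS.ha hq
  have hRfin : (R : Set G).Finite := hKfin.subset hRK
  have hRp : IsPGroup (Nat.card K).minFac R := IsPGroup.of_card hRcard
  have hRne : R ≠ ⊥ := by
    intro h
    rw [h, Subgroup.card_bot] at hRcard
    have h1 : 1 ≤ (Nat.card K).factorization (Nat.card K).minFac :=
      (Nat.Prime.dvd_iff_one_le_factorization hq Nat.card_pos.ne').1 (Nat.minFac_dvd _)
    have h2 : 1 < (Nat.card K).minFac ^ (Nat.card K).factorization (Nat.card K).minFac :=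
      Nat.one_lt_pow (by omega) hq.one_lt
    omega
  obtain ⟨V, hVR, hVne, hVinv, -, -⟩ := hOMG G a R _ hq hRfin hRinv hRp hRne
  have hVF : V ≤ F := (hVR.trans hRK).trans hKF
  have hVfin : (V : Set G).Finite := hRfin.subset hVR
  by_cases hC : (Cen F V : Set G).Infinite
  · exact Or.inr ⟨V, hVF, hVne, hVfin, hVinv, hC⟩
  · have hCf : (Cen F V : Set G).Finite := Set.not_infinite.1 hC
    have hQf : {x | Qel a F (Nat.card K).minFac x}.Finite := hinf _ hq
    exact Or.inl ⟨F, le_rfl, hS.inv, hF,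
      hC2 G a F V p _ hS hq hVF hVfin (hRp.to_le hVR) hVinv hQf hCf⟩

end Pool.Agent.Helper69.SH
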